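import Pool.Agent.H72.SW.End
import Pool.Agent.H47.OP.Inst
import Pool.Agent.H35.FS.Asm

/-!
# Assembly
-/

set_option autoImplicit false

namespace Pool.Agent.H72.SW

open Pool.Agent.H35
open Pool.Agent.H35.FC (IsCode IsPrefixCode SGf STree of_tiles)
open Pool.Agent.H35.FS (deg Wt SMax SDeg st_last all_letters)

theorem assembly (hMax : SMax) (hGf : SGf) (hTree : STree) (hDeg : SDeg)
    {α : Type} [Fintype α] [DecidableEq α] (C : Finset (List α))
    (hC : IsCode (C : Set (List α)))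
    (hmax : ∀ D : Set (List α), IsCode D → (C : Set (List α)) ⊆ D → D = C)
    (ω : α → ℕ) (m : ℕ) (hm : 1 ≤ m) (hω : ∀ x, m ≤ ω x ∨ (ω x = 0 ∧ [x] ∈ C)) (y : α)
    (h5 : ∀ w ∈ C, (w.map ω).sum ≤ 3 * m + 2 * ω y) :
    ∃ D : Finset (List α), IsPrefixCode (D : Set (List α)) ∧
      ∃ F : List α → List α, Set.BijOn F C D ∧ ∀ w ∈ C, (F w).Perm w := by
  by_cases hb : ∃ b : α, ω b ≠ 0
  · obtain ⟨z, hz, hyz⟩ : ∃ z : α, ω z ≠ 0 ∧ ω y ≤ ω z := by
      by_cases hy : ω y = 0
      · obtain ⟨b, hb⟩ := hb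
        exact ⟨b, hb, by omega⟩
      · exact ⟨y, hy, le_rfl⟩
    have hW : Wt (C : Set (List α)) ω m := by
      refine ⟨hm, fun x => ?_⟩
      rcases hω x with h | h
      · exact Or.inr h
      · exact Or.inl ⟨h.1, by exact_mod_cast h.2⟩
    have h5' : ∀ w ∈ (C : Set (List α)), deg ω w ≤ 3 * m + 2 * ω z := by
      intro w hw
      have h6 : deg ω w ≤ 3 * m + 2 * ω y := h5 w (by exact_mod_cast hw)
      omega
    have hcomp := hMax α C hC hmax
    have hne : (C : Set (List α)).Nonempty := by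
      obtain ⟨u, v, h⟩ := hcomp [y]
      obtain ⟨x, p, -, hp, -⟩ := st_last h (by simp)
      exact ⟨p, hp⟩
    obtain ⟨A, B, N, H⟩ := H47.OP.exists_ctx C.finite_toSet hC hne hcomp
    obtain ⟨S, P, hSf, hPf, hT⟩ := tiling hDeg H hz hW h5'
    exact of_tiles hGf hTree C hC S P hSf hPf hT
  · push Not at hb
    refine all_letters C hC fun x => ?_
    rcases hω x with h | h
    · have := hb x
      omega
    · exact h.2

end Pool.Agent.H72.SW
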