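import Pool.Agent.H35.CX.Api
import Pool.Agent.H35.FS.Core
import Pool.Agent.H35.FS.Deg

/-!
# The degree arguments for abstract contexts
-/

set_option autoImplicit false

namespace Pool.Agent.H72.SW

open Pool.Agent.H35
open Pool.Agent.H35.CX (Ctx rc_of_A lc_of_B rc_star lc_star fac facA exists_rc exists_lc not_N
  uniq ncut acut star_A star_B A_snoc B_cons endA endB)
open Pool.Agent.H35.FC (IsCode Facts Tiles star_nil star_append star_of_mem)
open Pool.Agent.H35.FS (deg deg_append deg_cons deg_snoc Wt SDeg star_of_deg le_deg last_letter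
  first_letter)

variable {α : Type}

/-- The contexts whose completions have weight at most `k`. -/
def Mn (A : List α → Set (List α)) (ω : α → ℕ) (k : ℕ) : Set (List α) :=
  {g | ∀ v ∈ A g, deg ω v ≤ k}

/-- What is left after the degree arguments. -/
structure Hyp (A B : List α → Set (List α)) (N : List α → List α → Set (List α))
    (ω : α → ℕ) (m : ℕ) (y : α) (k : ℕ) : Prop where
  ne : ∀ g f, (N g f).Nonempty
  gne : (Mn A ω k).Nonempty
  fne : (Mn B ω k).Nonempty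
  rc : ∀ g ∈ Mn A ω k, [] ∈ A g
  lc : ∀ f ∈ Mn B ω k, [] ∈ B f
  f1 : ∀ g, [] ∉ A g → g ++ [y] ∈ Mn A ω k
  f1' : ∀ f, [] ∉ B f → y :: f ∈ Mn B ω k
  n1 : ∀ g ∈ Mn A ω k, ∀ f ∈ Mn B ω k, ∀ u ∈ N g f, deg ω u = m

variable {C : Set (List α)} {A B : List α → Set (List α)} {N : List α → List α → Set (List α)}

theorem degA (H : Ctx C A B N) {ω : α → ℕ} {b : α} {d : ℕ} (hd : ∀ c ∈ C, deg ω c ≤ d)
    {g v : List α} (hv : v ∈ A (g ++ [b])) : ω b + deg ω v ≤ d := by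
  obtain ⟨p, hp⟩ := endA H hv
  have h1 := hd _ hp
  rw [deg_append, deg_cons] at h1
  omega

theorem degB (H : Ctx C A B N) {ω : α → ℕ} {b : α} {d : ℕ} (hd : ∀ c ∈ C, deg ω c ≤ d)
    {f v : List α} (hv : v ∈ B (b :: f)) : ω b + deg ω v ≤ d := by
  obtain ⟨p, hp⟩ := endB H hv
  have h1 := hd _ hp
  rw [deg_append, deg_snoc] at h1
  omega

theorem degN (H : Ctx C A B N) {ω : α → ℕ} {m : ℕ} (hW : Wt C ω m) {g f : List α}
    (hr : [] ∈ A g) (hl : [] ∈ B f) {u : List α} (hu : u ∈ N g f) : m ≤ deg ω u := by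
  apply le_deg hW
  intro h0
  exact ncut H (u1 := u) (u2 := []) (by simpa using hu) (rc_star H hr (star_of_deg hW h0)) hl

theorem emptyN (H : Ctx C A B N) {ω : α → ℕ} {m : ℕ} (hW : Wt C ω m)
    (hr : ∀ (g : List α) (b : α), ω b ≠ 0 → [] ∈ A (g ++ [b])) : ∃ g f, N g f = ∅ := by
  obtain ⟨g0, hg0⟩ := exists_rc H
  obtain ⟨f0, hf0⟩ := exists_lc H
  refine ⟨g0, f0, ?_⟩
  rw [Set.eq_empty_iff_forall_notMem]
  intro u hu
  refine ncut H (u1 := u) (u2 := []) (by simpa using hu) ?_ hf0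
  by_cases h0 : deg ω u = 0
  · exact rc_star H hg0 (star_of_deg hW h0)
  · obtain ⟨u', b, t, hb, ht, rfl⟩ := last_letter h0
    have h1 := rc_star H (hr (g0 ++ u') b hb) (star_of_deg hW ht)
    simpa using h1

theorem emptyN' (H : Ctx C A B N) {ω : α → ℕ} {m : ℕ} (hW : Wt C ω m)
    (hl : ∀ (f : List α) (b : α), ω b ≠ 0 → [] ∈ B (b :: f)) : ∃ g f, N g f = ∅ := by
  obtain ⟨g0, hg0⟩ := exists_rc H
  obtain ⟨f0, hf0⟩ := exists_lc H
  refine ⟨g0, f0, ?_⟩
  rw [Set.eq_empty_iff_forall_notMem]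
  intro u hu
  refine ncut H (g := g0) (u1 := []) (u2 := u) (by simpa using hu) (by simpa using hg0) ?_
  by_cases h0 : deg ω u = 0
  · exact lc_star H (star_of_deg hW h0) hf0
  · obtain ⟨u', b, t, hb, ht, rfl⟩ := first_letter h0
    have h1 := lc_star H (star_of_deg hW ht) (hl (u' ++ f0) b hb)
    simpa using h1

/-- (F1) -/
theorem F1 (H : Ctx C A B N) {ω : α → ℕ} {m : ℕ} {y : α} (hW : Wt C ω m)
    (hd : ∀ c ∈ C, deg ω c ≤ 3 * m + 2 * ω y) {g : List α} (hg : [] ∉ A g) :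
    g ++ [y] ∈ Mn A ω (2 * m + ω y) := by
  intro v hv
  have h1 : y :: v ∈ A g := by
    rcases A_snoc H hv with h | ⟨h, -⟩
    · exact h
    · exact absurd h hg
  obtain ⟨p, -, hc, hp⟩ := H.srA g _ h1
  have h3 : m ≤ deg ω p := by
    apply le_deg hW
    intro h0
    exact hg (hp (star_of_deg hW h0))
  have h2 := hd _ hc
  rw [deg_append, deg_cons] at h2
  omega

theorem F1' (H : Ctx C A B N) {ω : α → ℕ} {m : ℕ} {y : α} (hW : Wt C ω m)
    (hd : ∀ c ∈ C, deg ω c ≤ 3 * m + 2 * ω y) {f : List α} (hf : [] ∉ B f) :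
    y :: f ∈ Mn B ω (2 * m + ω y) := by
  intro v hv
  have h1 : v ++ [y] ∈ B f := by
    rcases B_cons H hv with h | ⟨h, -⟩
    · exact h
    · exact absurd h hf
  obtain ⟨p, -, hc, hp⟩ := H.srB f _ h1
  have h3 : m ≤ deg ω p := by
    apply le_deg hW
    intro h0
    exact hf (hp (star_of_deg hW h0))
  have h2 := hd _ hc
  rw [deg_append, deg_snoc] at h2
  omega

/-- A left context whose degree is minimal is complete. -/
theorem min_rc (H : Ctx C A B N) {ω : α → ℕ} {y : α} (hy : ω y ≠ 0) {k : ℕ}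
    (hk : ∀ m < k, ¬ ∃ g, ∀ v ∈ A g, deg ω v ≤ m)
    {g : List α} (hg : ∀ v ∈ A g, deg ω v ≤ k) : [] ∈ A g := by
  by_contra hr
  have h1 : ∀ v ∈ A (g ++ [y]), ω y + deg ω v ≤ k := by
    intro v hv
    rcases A_snoc H hv with h | ⟨h, -⟩
    · have h2 := hg _ h
      rwa [deg_cons] at h2
    · exact absurd h hr
  obtain ⟨v0, hv0⟩ := H.neA (g ++ [y])
  have h2 := h1 v0 hv0
  refine hk (k - 1) (by omega) ⟨g ++ [y], fun v hv => ?_⟩
  have := h1 v hv
  omega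

theorem min_lc (H : Ctx C A B N) {ω : α → ℕ} {y : α} (hy : ω y ≠ 0) {k : ℕ}
    (hk : ∀ m < k, ¬ ∃ f, ∀ v ∈ B f, deg ω v ≤ m)
    {f : List α} (hf : ∀ v ∈ B f, deg ω v ≤ k) : [] ∈ B f := by
  by_contra hr
  have h1 : ∀ v ∈ B (y :: f), ω y + deg ω v ≤ k := by
    intro v hv
    rcases B_cons H hv with h | ⟨h, -⟩
    · have h2 := hf _ h
      rw [deg_snoc] at h2
      omega
    · exact absurd h hr
  obtain ⟨v0, hv0⟩ := H.neB (y :: f)
  have h2 := h1 v0 hv0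
  refine hk (k - 1) (by omega) ⟨y :: f, fun v hv => ?_⟩
  have := h1 v hv
  omega

/-- two letters after a context which is not complete -/
theorem two_A (H : Ctx C A B N) {ω : α → ℕ} {m d : ℕ} (hW : Wt C ω m)
    (hd : ∀ c ∈ C, deg ω c ≤ d) {g : List α} {b y : α} (hb : ω b ≠ 0)
    (hr : [] ∉ A (g ++ [b])) :
    m + ω y ≤ d ∧ ∀ v ∈ A (g ++ [b] ++ [y]), deg ω v ≤ d - (m + ω y) := by
  have hmb : m ≤ ω b := by
    rcases hW.2 b with h | h
    · exact absurd h.1 hb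
    · exact h
  have h1 : ∀ v ∈ A (g ++ [b] ++ [y]), m + ω y + deg ω v ≤ d := by
    intro v hv
    rcases A_snoc H hv with h | ⟨h, -⟩
    · have h2 := degA H hd h
      rw [deg_cons] at h2
      omega
    · exact absurd h hr
  obtain ⟨v0, hv0⟩ := H.neA (g ++ [b] ++ [y])
  have h2 := h1 v0 hv0
  refine ⟨by omega, fun v hv => ?_⟩
  have := h1 v hv
  omega

theorem two_B (H : Ctx C A B N) {ω : α → ℕ} {m d : ℕ} (hW : Wt C ω m)
    (hd : ∀ c ∈ C, deg ω c ≤ d) {f : List α} {b y : α} (hb : ω b ≠ 0)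
    (hr : [] ∉ B (b :: f)) :
    m + ω y ≤ d ∧ ∀ v ∈ B (y :: b :: f), deg ω v ≤ d - (m + ω y) := by
  have hmb : m ≤ ω b := by
    rcases hW.2 b with h | h
    · exact absurd h.1 hb
    · exact h
  have h1 : ∀ v ∈ B (y :: b :: f), m + ω y + deg ω v ≤ d := by
    intro v hv
    rcases B_cons H hv with h | ⟨h, -⟩
    · have h2 := degB H hd h
      rw [deg_snoc] at h2
      omega
    · exact absurd h hr
  obtain ⟨v0, hv0⟩ := H.neB (y :: b :: f)
  have h2 := h1 v0 hv0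
  refine ⟨by omega, fun v hv => ?_⟩
  have := h1 v hv
  omega

/-- The degree arguments. -/
theorem core [Fintype α] [DecidableEq α] (hdeg : SDeg) (H : Ctx C A B N)
    {ω : α → ℕ} {m : ℕ} {y : α} (hy : ω y ≠ 0)
    (hW : Wt C ω m) (h5 : ∀ w ∈ C, deg ω w ≤ 3 * m + 2 * ω y) :
    (∃ S P : Set (List α), S.Finite ∧ P.Finite ∧ Tiles C S P ∅) ∨
      Hyp A B N ω m y (2 * m + ω y) := by
  classical
  by_cases hN : ∃ g f, N g f = ∅
  · obtain ⟨g, f, hgf⟩ := hN
    left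
    refine ⟨A g, B f, H.finA g, H.finB f, ?_⟩
    rw [← hgf]
    exact H.tiles g f
  right
  have hne : ∀ g f, (N g f).Nonempty := by
    intro g f
    rw [Set.nonempty_iff_ne_empty]
    exact fun h => hN ⟨g, f, h⟩
  -- the maximal weight
  obtain ⟨c0, hc0, hd⟩ := H.fin.exists_maximalFor (deg ω) C H.cne
  have hmax : ∀ c ∈ C, deg ω c ≤ deg ω c0 := by
    intro c hc
    rcases le_total (deg ω c) (deg ω c0) with h | h
    · exact h
    · exact hd hc h
  have hd5 := h5 c0 hc0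
  set d := deg ω c0 with hdd
  -- the minimal degrees
  have hσ : ∃ k, ∃ g, ∀ v ∈ A g, deg ω v ≤ k :=
    ⟨d, [y], fun v hv => by
      have := degA H (g := []) hmax hv
      omega⟩
  have hτ : ∃ k, ∃ f, ∀ v ∈ B f, deg ω v ≤ k :=
    ⟨d, [y], fun v hv => by
      have := degB H (f := []) hmax hv
      omega⟩
  set σ := Nat.find hσ with hσd
  set τ := Nat.find hτ with hτd
  have hσm : ∀ m < σ, ¬ ∃ g, ∀ v ∈ A g, deg ω v ≤ m := fun m hm => Nat.find_min hσ hm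
  have hτm : ∀ m < τ, ¬ ∃ f, ∀ v ∈ B f, deg ω v ≤ m := fun m hm => Nat.find_min hτ hm
  obtain ⟨g0, hg0⟩ := Nat.find_spec hσ
  obtain ⟨f0, hf0⟩ := Nat.find_spec hτ
  have hrc : ∀ g, (∀ v ∈ A g, deg ω v ≤ σ) → [] ∈ A g := fun g hg => min_rc H hy hσm hg
  have hlc : ∀ f, (∀ v ∈ B f, deg ω v ≤ τ) → [] ∈ B f := fun f hf => min_lc H hy hτm hf
  have hσd2 : σ + m + ω y ≤ d := by
    by_contra hcon
    refine hN (emptyN H hW fun g b hb => ?_)
    by_contra hr
    obtain ⟨h1, h2⟩ := two_A (y := y) H hW hmax hb hr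
    have h3 : σ ≤ d - (m + ω y) := Nat.find_min' hσ ⟨_, h2⟩
    omega
  have hτd2 : τ + m + ω y ≤ d := by
    by_contra hcon
    refine hN (emptyN' H hW fun f b hb => ?_)
    by_contra hr
    obtain ⟨h1, h2⟩ := two_B (y := y) H hW hmax hb hr
    have h3 : τ ≤ d - (m + ω y) := Nat.find_min' hτ ⟨_, h2⟩
    omega
  have key : ∀ g f, (∀ v ∈ A g, deg ω v ≤ σ) → (∀ v ∈ B f, deg ω v ≤ τ) →
      ∀ u ∈ N g f, d + deg ω u ≤ σ + τ ∧ m ≤ deg ω u := by
    intro g f hg hf u hu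
    refine ⟨?_, degN H hW (hrc g hg) (hlc f hf) hu⟩
    have ht := H.tiles g f
    obtain ⟨s, hs, p, hp, hsp⟩ := hdeg α H.fin.toFinset (H.finA g).toFinset
      (H.finB f).toFinset (H.finN g f).toFinset ω y hy
      (by rw [Set.Finite.coe_toFinset]; exact H.code)
      (by simpa only [Set.Finite.coe_toFinset] using ht) u
      ((Set.Finite.mem_toFinset _).2 hu) c0 ((Set.Finite.mem_toFinset _).2 hc0)
    rw [Set.Finite.mem_toFinset] at hs hp
    have h1 := hg s hs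
    have h2 := hf p hp
    omega
  obtain ⟨u0, hu0⟩ := hne g0 f0
  have hk0 := key g0 f0 hg0 hf0 u0 hu0
  have h3 : σ = 2 * m + ω y ∧ τ = 2 * m + ω y ∧ d = 3 * m + 2 * ω y := by omega
  obtain ⟨hs3, ht3, hd3⟩ := h3
  rw [hs3] at hrc
  rw [ht3] at hlc
  rw [hs3, ht3, hd3] at key
  refine ⟨hne, ⟨g0, ?_⟩, ⟨f0, ?_⟩, fun g hg => hrc g hg, fun f hf => hlc f hf, ?_, ?_, ?_⟩
  · intro v hv
    have := hg0 v hv
    omega
  · intro v hv
    have := hf0 v hv
    omega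
  · intro g hg
    exact F1 H hW h5 hg
  · intro f hf
    exact F1' H hW h5 hf
  · intro g hg f hf u hu
    have := key g f hg hf u hu
    omega

end Pool.Agent.H72.SW
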