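import Pool.Agent.H72.SW.Core
import Pool.Agent.H35.FS.Dich

/-!
# The dichotomy and the end for abstract contexts
-/

set_option autoImplicit false

namespace Pool.Agent.H72.SW

open Pool.Agent.H35
open Pool.Agent.H35.CX (Ctx rc_of_A lc_of_B rc_star lc_star fac facA exists_rc exists_lc not_N
  uniq ncut acut star_A star_B A_snoc B_cons endA endB revF mem_revF tiles_rev0)
open Pool.Agent.H35.FC (IsCode Facts Tiles star_nil star_append star_of_mem)
open Pool.Agent.H35.FS (deg deg_append deg_cons deg_snoc Wt SDeg star_of_deg le_deg last_letter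
  first_letter SD sd_comm sd_nonempty exists_short four)

variable {α : Type}
variable {C : Set (List α)} {A B : List α → Set (List α)} {N : List α → List α → Set (List α)}

/-- The dichotomy. -/
theorem dich (H : Ctx C A B N) {ω : α → ℕ} {m : ℕ} {y : α} {k : ℕ} (hW : Wt C ω m)
    (hh : Hyp A B N ω m y k) :
    (∀ f ∈ Mn B ω k, ∀ f' ∈ Mn B ω k, B f = B f') ∨
      (∀ g ∈ Mn A ω k, ∀ g' ∈ Mn A ω k, A g = A g') := by
  by_contra hcon
  rw [not_or] at hcon
  obtain ⟨hB, hA⟩ := hcon
  push Not at hB hA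
  obtain ⟨f, hf, f', hf', hB⟩ := hB
  obtain ⟨g, hg, g', hg', hA⟩ := hA
  obtain ⟨x0, hx0, mx⟩ := exists_short (sd_nonempty hA)
  obtain ⟨d0, hd0, md⟩ := exists_short (sd_nonempty hB)
  have hxr : m ≤ deg ω x0 := by
    apply le_deg hW
    intro h0
    have hst := star_of_deg hW h0
    have he : x0 = [] := by
      rcases hx0 with h | h
      · exact star_A H (hh.rc g hg) hst h.1
      · exact star_A H (hh.rc g' hg') hst h.1
    subst he
    rcases hx0 with h | h
    · exact h.2 (hh.rc g' hg')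
    · exact h.2 (hh.rc g hg)
  have hdr : m ≤ deg ω d0 := by
    apply le_deg hW
    intro h0
    have hst := star_of_deg hW h0
    have he : d0 = [] := by
      rcases hd0 with h | h
      · exact star_B H (hh.lc f hf) hst h.1
      · exact star_B H (hh.lc f' hf') hst h.1
    subst he
    rcases hd0 with h | h
    · exact h.2 (hh.lc f' hf')
    · exact h.2 (hh.lc f hf)
  have hdeg : m < deg ω (x0 ++ d0) := by
    rw [deg_append]
    have := hW.1
    omega
  have huniq : ∀ g ∈ Mn A ω k, ∀ f ∈ Mn B ω k,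
      ∃! t, t ∈ Facts (A g) (FC.Star C) (B f) (x0 ++ d0) := by
    intro g hg f hf
    apply (H.tiles g f (x0 ++ d0)).2
    intro h
    have := hh.n1 g hg f hf _ h
    omega
  have mx' : ∀ x ∈ SD (A g') (A g), x0.length ≤ x.length := by
    rw [sd_comm]; exact mx
  have md' : ∀ x ∈ SD (B f') (B f), d0.length ≤ x.length := by
    rw [sd_comm]; exact md
  rcases hx0 with hx | hx <;> rcases hd0 with hd | hd
  · exact four star_nil hx.1 hx.2 hd.1 hd.2 mx md (huniq g hg f hf) (huniq g hg f' hf')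
      (huniq g' hg' f hf) (huniq g' hg' f' hf')
  · exact four star_nil hx.1 hx.2 hd.1 hd.2 mx md' (huniq g hg f' hf') (huniq g hg f hf)
      (huniq g' hg' f' hf') (huniq g' hg' f hf)
  · exact four star_nil hx.1 hx.2 hd.1 hd.2 mx' md (huniq g' hg' f hf) (huniq g' hg' f' hf')
      (huniq g hg f hf) (huniq g hg f' hf')
  · exact four star_nil hx.1 hx.2 hd.1 hd.2 mx' md' (huniq g' hg' f' hf') (huniq g' hg' f hf)
      (huniq g hg f' hf') (huniq g hg f hf)

/-- The end, if all minimal right contexts have the same completions. -/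
theorem fin_end (H : Ctx C A B N) {ω : α → ℕ} {m : ℕ} {b : α} {k : ℕ} (hb : ω b ≠ 0)
    (hW : Wt C ω m) (hH : Hyp A B N ω m b k)
    (hB : ∀ f ∈ Mn B ω k, ∀ f' ∈ Mn B ω k, B f = B f') :
    ∃ S P : Set (List α), S.Finite ∧ P.Finite ∧ Tiles C S P ∅ := by
  obtain ⟨g, hg⟩ := hH.gne
  obtain ⟨f, hf⟩ := hH.fne
  obtain ⟨u, hu⟩ := hH.ne g f
  have hrg : [] ∈ A g := hH.rc g hg
  have hlf : [] ∈ B f := hH.lc f hf
  have hdu : deg ω u = m := hH.n1 g hg f hf u hu
  -- the set `T`
  let T : Set (List α) := {w | ∃ c ∈ FC.Star C, ∃ β ∈ B f, c ++ β = w}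
  have hT1 : ∀ w, w ∈ T → [] ∈ B (w ++ f) := by
    rintro w ⟨c, hc, β, hβ, rfl⟩
    rw [List.append_assoc]
    exact lc_star H hc (lc_of_B H hβ)
  have hT2 : ∀ w, [] ∈ B (w ++ f) → w ∈ T := fun w hw => fac H hw
  -- `(A)`
  have hN : ∀ w, u ++ b :: w ∉ N g f := by
    intro w hw
    have h1 := hH.n1 g hg f hf _ hw
    rw [deg_append, deg_cons] at h1
    omega
  have hpre : ∀ α' ∈ A g, ∀ u', u = α' ++ u' → α' = [] := by
    intro α' hα u' e
    have hd : deg ω α' + deg ω u' = m := by rw [← deg_append, ← e, hdu]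
    rcases Nat.eq_zero_or_pos (deg ω α') with h0 | h0
    · exact star_A H hrg (star_of_deg hW h0) hα
    · exfalso
      have h1 : m ≤ deg ω α' := le_deg hW (by omega)
      have h0' : deg ω u' = 0 := by omega
      exact ncut H (g := g) (f := f) (u1 := α') (u2 := u') (by rw [← e]; exact hu)
        (rc_of_A H hα) (lc_star H (star_of_deg hW h0') hlf)
  let S' : Set (List α) := {v | u ++ b :: v ∈ A g}
  have hA1 : ∀ w, u ++ b :: w ∉ T → (∃ t, t ∈ Facts S' (FC.Star C) (B f) w) := by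
    intro w hw
    obtain ⟨⟨x, c, β⟩, ⟨h1, h2, h3, h4⟩, -⟩ := (H.tiles g f (u ++ b :: w)).2 (hN w)
    simp only at h1 h2 h3 h4
    rcases List.append_eq_append_iff.1 h4 with ⟨z, e1, e2⟩ | ⟨z, e1, e2⟩
    · -- `u = x ++ z`
      exfalso
      have hx := hpre x h1 z e1
      subst hx
      exact hw ⟨c, h2, β, h3, by simpa using h4⟩
    · -- `x = u ++ z`
      rcases z with _ | ⟨b', z⟩
      · exfalso
        have hx := hpre x h1 [] (by simpa using e1.symm)
        subst hx
        exact hw ⟨c, h2, β, h3, by simpa using h4⟩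
      · rw [List.cons_append, List.cons.injEq] at e2
        obtain ⟨rfl, e2⟩ := e2
        refine ⟨⟨z, c, β⟩, ?_, h2, h3, e2.symm⟩
        change u ++ b :: z ∈ A g
        rw [← e1]; exact h1
  have hlift : ∀ w v c β, (v, c, β) ∈ Facts S' (FC.Star C) (B f) w →
      (u ++ b :: v, c, β) ∈ Facts (A g) (FC.Star C) (B f) (u ++ b :: w) := by
    rintro w v c β ⟨h1, h2, h3, h4⟩
    refine ⟨h1, h2, h3, ?_⟩
    simp only at h4 ⊢
    rw [← h4]; simp
  have hA2 : ∀ w t t', t ∈ Facts S' (FC.Star C) (B f) w →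
      t' ∈ Facts S' (FC.Star C) (B f) w → t = t' := by
    rintro w ⟨v, c, β⟩ ⟨v', c', β'⟩ h h'
    obtain ⟨h1, h2, h3, h4⟩ := hlift w v c β h
    obtain ⟨h1', h2', h3', h4'⟩ := hlift w v' c' β' h'
    simp only at h1 h2 h3 h4 h1' h2' h3' h4'
    have := uniq H (f := f) h1 h2 h3 h1' h2' h3' (h4.trans h4'.symm)
    simp only [Prod.mk.injEq, List.append_cancel_left_eq, List.cons.injEq, true_and] at this ⊢
    exact this
  -- `(B)`
  have hBB : ∀ w, w ∉ T → u ++ b :: w ∉ T := by
    intro w hw hw'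
    have h1 : [] ∉ B (w ++ f) := fun h => hw (hT2 w h)
    have h2 : b :: (w ++ f) ∈ Mn B ω k := hH.f1' _ h1
    have h3 : B (b :: (w ++ f)) = B f := hB _ h2 _ hf
    have h4 : u ∈ N g (b :: (w ++ f)) := by
      by_contra hcon
      obtain ⟨t, ht, -⟩ := (H.tiles g (b :: (w ++ f)) u).2 hcon
      rw [h3] at ht
      have := (H.tiles g f u).1 hu
      rw [this] at ht
      exact ht
    refine ncut H (g := g) (f := b :: (w ++ f)) (u1 := []) (u2 := u) (by simpa using h4)
      (by rw [List.append_nil]; exact hrg) ?_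
    have := hT1 _ hw'
    rwa [List.append_assoc, List.cons_append] at this
  have hfinS : S'.Finite := by
    refine Set.Finite.preimage ?_ (H.finA g)
    intro x _ y _ hxy
    simpa using hxy
  have hfinP : (B f).Finite := H.finB f
  by_cases h0 : [] ∈ S'
  · refine ⟨S', B f, hfinS, hfinP, fun w => ⟨fun h => h.elim, fun _ => ?_⟩⟩
    have hex : ∃ t, t ∈ Facts S' (FC.Star C) (B f) w := by
      by_cases hw : w ∈ T
      · obtain ⟨c, hc, β, hβ, e⟩ := hw
        exact ⟨([], c, β), h0, hc, hβ, by simpa using e⟩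
      · exact hA1 w (hBB w hw)
    obtain ⟨t, ht⟩ := hex
    exact ⟨t, ht, fun t' ht' => hA2 w t' t ht' ht⟩
  · -- `(C)`
    have hnR : [] ∉ A (g ++ u) := fun h =>
      ncut H (g := g) (f := f) (u1 := u) (u2 := []) (by simpa using hu) h
        (by rw [List.nil_append]; exact hlf)
    have hRb : [] ∈ A (g ++ (u ++ [b])) := by
      rw [← List.append_assoc]
      exact hH.rc _ (hH.f1 _ hnR)
    have hC : ∀ w ∈ T, ∀ t, t ∉ Facts S' (FC.Star C) (B f) w := by
      rintro w hw ⟨v, c, β⟩ ⟨h1, h2, h3, h4⟩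
      simp only at h1 h2 h3 h4
      have hv : v ≠ [] := fun h => h0 (h ▸ h1)
      refine acut H (g := g) (v1 := u ++ [b]) (v2 := v) (t := c ++ β) (f := f) ?_ hv hRb
        ?_ (by rw [List.append_assoc]; exact lc_star H h2 (lc_of_B H h3))
      · have h1' : u ++ b :: v ∈ A g := h1
        simpa using h1'
      · rw [h4]
        exact hT1 w hw
    refine ⟨insert [] S', B f, hfinS.insert _, hfinP, fun w =>
      ⟨fun h => h.elim, fun _ => ?_⟩⟩
    by_cases hw : w ∈ T
    · have hw2 := hw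
      obtain ⟨c, hc, β, hβ, e⟩ := hw2
      refine ⟨([], c, β), ⟨Set.mem_insert _ _, hc, hβ, by simpa using e⟩, ?_⟩
      rintro ⟨v', c', β'⟩ ⟨h1, h2, h3, h4⟩
      simp only at h1 h2 h3 h4
      rcases h1 with rfl | h1
      · have h5 := uniq H (g := g) (f := f) hrg h2 h3 hrg hc hβ
          (by rw [h4]; simpa using e.symm)
        simp only [Prod.mk.injEq, true_and]
        exact h5.2
      · exact absurd (⟨h1, h2, h3, h4⟩ : (v', c', β') ∈ Facts S' (FC.Star C) (B f) w)
          (hC w hw _)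
    · obtain ⟨t, ht⟩ := hA1 w (hBB w hw)
      refine ⟨t, ⟨Set.mem_insert_of_mem _ ht.1, ht.2.1, ht.2.2.1, ht.2.2.2⟩, ?_⟩
      rintro ⟨v', c', β'⟩ ⟨h1, h2, h3, h4⟩
      simp only at h1 h2 h3 h4
      rcases h1 with rfl | h1
      · exact absurd ⟨c', h2, β', h3, by simpa using h4⟩ hw
      · exact hA2 w _ _ ⟨h1, h2, h3, h4⟩ ht

theorem deg_rev (ω : α → ℕ) (w : List α) : deg ω w.reverse = deg ω w := by
  unfold deg
  rw [List.map_reverse, List.sum_reverse]

theorem mn_rev (B : List α → Set (List α)) (ω : α → ℕ) (k : ℕ) (g : List α) :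
    g ∈ Mn (revF B) ω k ↔ g.reverse ∈ Mn B ω k := by
  constructor
  · intro h v hv
    have := h v.reverse ((mem_revF B g _).2 (by simpa using hv))
    rwa [deg_rev] at this
  · intro h v hv
    have := h v.reverse ((mem_revF B g v).1 hv)
    rwa [deg_rev] at this

/-- The mirror image of the situation. -/
theorem Hyp.rev {ω : α → ℕ} {m : ℕ} {y : α} {k : ℕ} (hH : Hyp A B N ω m y k) :
    Hyp (revF B) (revF A) (fun g f => List.reverse '' (N f.reverse g.reverse)) ω m y k where
  ne g f := by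
    obtain ⟨u, hu⟩ := hH.ne f.reverse g.reverse
    exact ⟨u.reverse, u, hu, rfl⟩
  gne := by
    obtain ⟨f, hf⟩ := hH.fne
    exact ⟨f.reverse, (mn_rev B ω k _).2 (by rwa [List.reverse_reverse])⟩
  fne := by
    obtain ⟨f, hf⟩ := hH.gne
    exact ⟨f.reverse, (mn_rev A ω k _).2 (by rwa [List.reverse_reverse])⟩
  rc g hg := by
    rw [mem_revF]
    exact hH.lc _ ((mn_rev B ω k g).1 hg)
  lc g hg := by
    rw [mem_revF]
    exact hH.rc _ ((mn_rev A ω k g).1 hg)
  f1 g hg := by
    rw [mem_revF, List.reverse_nil] at hg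
    rw [mn_rev, List.reverse_append]
    exact hH.f1' g.reverse hg
  f1' g hg := by
    rw [mem_revF, List.reverse_nil] at hg
    rw [mn_rev, List.reverse_cons]
    exact hH.f1 g.reverse hg
  n1 g hg f hf u hu := by
    obtain ⟨u, hu, rfl⟩ := hu
    rw [deg_rev]
    exact hH.n1 f.reverse ((mn_rev A ω k f).1 hf) g.reverse ((mn_rev B ω k g).1 hg) u hu

/-- A code with such contexts and small weights has a tiling without `N`. -/
theorem tiling [Fintype α] [DecidableEq α] (hdeg : SDeg) (H : Ctx C A B N)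
    {ω : α → ℕ} {m : ℕ} {y : α} (hy : ω y ≠ 0) (hW : Wt C ω m)
    (h5 : ∀ w ∈ C, deg ω w ≤ 3 * m + 2 * ω y) :
    ∃ S P : Set (List α), S.Finite ∧ P.Finite ∧ Tiles C S P ∅ := by
  rcases core hdeg H hy hW h5 with h | hH
  · exact h
  · rcases dich H hW hH with h1 | h2
    · exact fin_end H hy hW hH h1
    · have hW' : Wt (List.reverse '' C) ω m := by
        refine ⟨hW.1, fun x => ?_⟩
        rcases hW.2 x with h | h
        · exact Or.inl ⟨h.1, [x], h.2, rfl⟩
        · exact Or.inr h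
      obtain ⟨S, P, hS, hP, hT⟩ := fin_end (CX.Ctx.rev H) hy hW' hH.rev (by
        intro f hf f' hf'
        have h3 := h2 f.reverse ((mn_rev A ω _ f).1 hf) f'.reverse ((mn_rev A ω _ f').1 hf')
        unfold revF
        rw [h3])
      exact ⟨_, _, hP.image _, hS.image _, tiles_rev0 hT⟩

end Pool.Agent.H72.SW
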